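import Pool.Agent.Helper10.AB.GoalsF1

/-! Packet ORB of project AB: the sum over the orbits of `Jn`. -/

open Set Filter Topology

noncomputable section

namespace Pool.Agent.Helper54.AB

open Pool.Agent.Helper24.AB Pool.Agent.Helper10.AB

theorem lam_gt_one : 1 < lam := by
  unfold lam
  have := Real.sqrt_nonneg 5
  linarith

/-- `α` along an orbit -/
theorem alp_zpow (h : ∀ J, alp (Jn J) = lam * alp J) (E : Equiv.Perm (Fin 3 → ℤ))
    (hE : ∀ J, E J = Jn J) (J : Fin 3 → ℤ) (k : ℤ) : alp ((E ^ k) J) = lam ^ k * alp J := by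
  have h0 : lam ≠ 0 := (zero_lt_one.trans lam_gt_one).ne'
  induction k using Int.induction_on with
  | zero => simp
  | succ n ih =>
    have e : (E ^ ((n : ℤ) + 1)) J = E ((E ^ (n : ℤ)) J) := by
      rw [add_comm, zpow_add, zpow_one]
      rfl
    rw [e, hE, h, ih, zpow_add_one₀ h0]
    ring
  | pred n ih =>
    have e : (E ^ (-(n : ℤ))) J = E ((E ^ (-(n : ℤ) - 1)) J) := by
      have : (E ^ (-(n : ℤ))) = E * E ^ (-(n : ℤ) - 1) := by
        rw [← zpow_one_add]
        congr 1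
        ring
      rw [this]
      rfl
    rw [e, hE, h] at ih
    rw [zpow_sub_one₀ h0]
    field_simp
    linarith

theorem orb_fiber (E : Equiv.Perm (Fin 3 → ℤ)) (c : (Fin 3 → ℤ) → ℂ) (x : Fin 3 → ℤ)
    (hinj : ∀ k l : ℤ, (E ^ k) x = (E ^ l) x → k = l)
    (q : Quotient (Equiv.Perm.SameCycle.setoid E)) (hx : Quotient.mk _ x = q) :
    ∑' y : {y : Fin 3 → ℤ // (Quotient.mk (Equiv.Perm.SameCycle.setoid E) y) = q}, c y.1 =
      ∑' k : ℤ, c ((E ^ k) x) := by
  subst hx
  let f : ℤ → {y : Fin 3 → ℤ // (Quotient.mk (Equiv.Perm.SameCycle.setoid E) y) =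
      Quotient.mk _ x} := fun k =>
    ⟨(E ^ k) x, Quotient.sound (s := Equiv.Perm.SameCycle.setoid E)
      (Equiv.Perm.SameCycle.symm ⟨k, rfl⟩)⟩
  have hf : Function.Bijective f := by
    refine ⟨fun k l h => hinj k l (congrArg Subtype.val h), fun y => ?_⟩
    have h1 : Equiv.Perm.SameCycle E y.1 x :=
      Quotient.exact (s := Equiv.Perm.SameCycle.setoid E) y.2
    obtain ⟨k, hk⟩ := h1.symm
    exact ⟨k, Subtype.ext hk⟩
  exact ((Equiv.ofBijective f hf).tsum_eq fun y => c y.1).symm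

theorem orb (hW : S_WW) : S_ORB := by
  obtain ⟨-, -, -, -, hne, -, hal, -⟩ := hW
  intro E hE c hc h0 hk
  have hl := lam_gt_one
  have hs : Summable c := hc.of_norm
  let π : (Fin 3 → ℤ) → Quotient (Equiv.Perm.SameCycle.setoid E) := fun J => Quotient.mk _ J
  have h1 := (Equiv.sigmaFiberEquiv π).tsum_eq c
  have h2 : Summable fun p : (Σ q, {J // π J = q}) => c (Equiv.sigmaFiberEquiv π p) :=
    (Equiv.sigmaFiberEquiv π).summable_iff.2 hs
  rw [← h1, h2.tsum_sigma]
  refine (tsum_congr fun q => ?_).trans tsum_zero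
  change ∑' y : {J // π J = q}, c y.1 = 0
  by_cases hq : ∀ y : {J // π J = q}, y.1 0 = 0 ∧ y.1 1 = 0
  · exact (tsum_congr fun y => h0 y.1 (hq y).1 (hq y).2).trans tsum_zero
  · push Not at hq
    obtain ⟨x, hx⟩ := hq
    have hx' : x.1 0 ≠ 0 ∨ x.1 1 ≠ 0 := by
      by_cases h : x.1 0 = 0
      · exact Or.inr (hx h)
      · exact Or.inl h
    have ha := (hne x.1 hx').1
    refine (orb_fiber E c x.1 ?_ q x.2).trans (hk x.1 hx')
    intro k l hkl
    have e1 := alp_zpow (fun J => (hal J).1) E hE x.1 k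
    have e2 := alp_zpow (fun J => (hal J).1) E hE x.1 l
    rw [hkl, e2] at e1
    have e3 := mul_right_cancel₀ ha e1
    exact (zpow_right_injective₀ (zero_lt_one.trans hl) hl.ne' e3).symm

end Pool.Agent.Helper54.AB
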